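import Pool.Agent.Y889.CF.Base

/-!
Conjecture F with the true constant for all but few triples of height at most `H`, for all lengths
`(log H)^B ≤ x ≤ H / (log H)^B` simultaneously.
-/

set_option autoImplicit false

namespace Pool.Agent.Y889.CF

open Finset Polynomial Filter Topology
open Pool.Agent.H442R2.EHI (evt_log_pow evt_log_ge)
open Pool.Agent.H300R2.BH
open Pool.Agent.H300R2.FB
open Pool.Agent.TH892
open Pool.Agent.W468.ConjF

/-- the number of `1 ≤ t ≤ x` with `|a t² + b t + c|` prime -/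
def cp (a b c : ℤ) (x : ℕ) : ℕ :=
  #((Icc 1 x).filter (fun t : ℕ => (a * (t : ℤ) ^ 2 + b * t + c).natAbs.Prime))

/-- the sum of `1 / log |a t² + b t + c|` over `1 ≤ t ≤ x` with `|a t² + b t + c| ≥ 2` -/
noncomputable def ls (a b c : ℤ) (x : ℕ) : ℝ :=
  ∑ t ∈ (Icc 1 x).filter (fun t : ℕ => 2 ≤ |a * (t : ℤ) ^ 2 + b * t + c|),
    1 / Real.log (|a * (t : ℤ) ^ 2 + b * t + c| : ℤ)

lemma pa_eq (a b c : ℤ) (x : ℕ) : pa (Pool.Agent.W468.ConjF.P a b c) x = cp a b c x := by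
  unfold pa cp
  simp only [eval_P]

lemma la_eq (a b c : ℤ) (x : ℕ) : la (Pool.Agent.W468.ConjF.P a b c) x = ls a b c x := by
  unfold la ls
  simp only [eval_P, Int.cast_abs]

lemma ls_nonneg (a b c : ℤ) (x : ℕ) : 0 ≤ ls a b c x := by
  unfold ls
  refine sum_nonneg fun t ht => ?_
  rw [mem_filter] at ht
  have h1 : (2:ℝ) ≤ ((|a * (t : ℤ) ^ 2 + b * t + c| : ℤ) : ℝ) := by exact_mod_cast ht.2
  exact div_nonneg zero_le_one (Real.log_nonneg (by linarith))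

/-- from the Euler product cut at `z` to the limit -/
lemma final_ar (P M S c θ₁ θ₂ η : ℝ) (hM : 0 ≤ M) (hc : 0 < c) (h1 : |P - S * M| ≤ S * M * θ₁)
    (h2 : |S - 2 * c| ≤ 4 * θ₂ * c) (hθ1 : 0 ≤ θ₁) (hθ11 : θ₁ ≤ 1) (hθ2 : 0 ≤ θ₂)
    (h3 : θ₁ + 4 * θ₂ ≤ η) : |P - 2 * c * M| ≤ 2 * c * M * η := by
  have h4 := abs_le.1 h2
  have h5 : S * M * θ₁ ≤ (2 * c + 4 * θ₂ * c) * M * θ₁ := by
    have : S ≤ 2 * c + 4 * θ₂ * c := by linarith [h4.2]
    gcongr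
  have h6 : |(S - 2 * c) * M| ≤ 4 * θ₂ * c * M := by
    rw [abs_mul, abs_of_nonneg hM]
    gcongr
  have e : P - 2 * c * M = (P - S * M) + (S - 2 * c) * M := by ring
  rw [e]
  refine (abs_add_le _ _).trans ?_
  have h7 : 4 * θ₂ * c * M * θ₁ ≤ 4 * θ₂ * c * M * 1 := by gcongr
  calc |P - S * M| + |(S - 2 * c) * M| ≤ (2 * c + 4 * θ₂ * c) * M * θ₁ + 4 * θ₂ * c * M := by linarith
    _ = 2 * c * M * θ₁ + 4 * θ₂ * c * M * θ₁ + 4 * θ₂ * c * M := by ring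
    _ ≤ 2 * c * M * θ₁ + 4 * θ₂ * c * M * 1 + 4 * θ₂ * c * M := by linarith
    _ = 2 * c * M * (θ₁ + 4 * θ₂) := by ring
    _ ≤ 2 * c * M * η := by gcongr

/-- **Conjecture F on average, all scales.** -/
theorem all_scales (U : ℕ) : ∃ B H₀ : ℕ, ∀ H : ℕ, H₀ ≤ H →
    ∃ Bad ⊆ Tr H, (#Bad : ℝ) ≤ #(Tr H) / Real.log H ^ U ∧
    ∀ t ∈ Tr H, t ∉ Bad → Admissible t.1 t.2.1 t.2.2 →
      ∃ C : ℝ, 0 < C ∧ Tendsto (fun z => CF t.1 t.2.1 t.2.2 z) atTop (𝓝 C) ∧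
      ∀ x : ℕ, Real.log H ^ B ≤ x → (x : ℝ) * Real.log H ^ B ≤ H →
        |(cp t.1 t.2.1 t.2.2 x : ℝ) - 2 * C * ls t.1 t.2.1 t.2.2 x| ≤
          2 * C * ls t.1 t.2.1 t.2.2 x / Real.log H ^ U := by
  classical
  obtain ⟨E1, hexc⟩ := Pool.Agent.Y889.SK.exc_boxS 2 (by norm_num) (U + 1)
  obtain ⟨E2, hcf⟩ := CF_box (U + 1) (U + 1)
  set E := max (max E1 E2) 1 with hE
  obtain ⟨B, H1, hB⟩ := hexc E ((le_max_left _ _).trans (le_max_left _ _))
  obtain ⟨H2, hC⟩ := hcf E ((le_max_right _ _).trans (le_max_left _ _))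
  obtain ⟨H3, h3⟩ := eventually_atTop.1 (evt_log_ge 16)
  refine ⟨B, max H1 (max H2 H3), fun H hH => ?_⟩
  have hL16 : 16 ≤ Real.log H := h3 H (le_trans (le_trans (le_max_right _ _) (le_max_right _ _)) hH)
  obtain ⟨X, hXT, hXc, hX⟩ := hC H (le_trans (le_trans (le_max_left _ _) (le_max_right _ _)) hH)
  set L := Real.log H with hLdef
  have hL0 : 0 < L := by linarith
  have hL1 : 1 ≤ L := by linarith
  have hLp0 : ∀ n : ℕ, 0 < L ^ n := fun n => by positivity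
  have hLp : ∀ n : ℕ, 1 ≤ L ^ n := fun n => one_le_pow₀ hL1
  set z := ⌊L ^ E⌋₊ with hz
  have hE1 : 1 ≤ E := le_max_right _ _
  have hz2 : 2 ≤ z := by
    apply Nat.le_floor
    have : L ≤ L ^ E := le_self_pow₀ hL1 (by omega)
    push_cast
    linarith
  -- the bad triples
  obtain ⟨PP, hPP⟩ : ∃ PP : (Fin (2 + 1) → ℤ) → Prop, ∀ v, PP v ↔
      ((∀ p : ℕ, p.Prime → p ≤ z → rho (pol v) p ≠ p) ∧
      ∃ K : ℕ, L ^ B ≤ K ∧ (K : ℝ) * L ^ B ≤ H ∧
        SS z (pol v) * la (pol v) K / L ^ (U + 1) <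
        |pa (pol v) K - SS z (pol v) * la (pol v) K|) := ⟨_, fun _ => Iff.rfl⟩
  have hbad := hB H (le_trans (le_max_left _ _) hH) PP (fun v _ hv => (hPP v).1 hv)
  refine ⟨(Tr H).filter (fun t => PP (cv t)) ∪ X, union_subset (filter_subset _ _) hXT, ?_, ?_⟩
  · have h1 : #((Tr H).filter (fun t => PP (cv t))) ≤ #((Pool.Agent.TH892.box 2 H).filter PP) := by
      apply card_le_card_of_injOn cv
      · intro t ht
        have ht' := mem_filter.1 (mem_coe.1 ht)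
        exact mem_coe.2 (mem_filter.2 ⟨cv_mem ht'.1, ht'.2⟩)
      · exact cv_inj.injOn
    have h2 := card_union_le ((Tr H).filter (fun t => PP (cv t))) X
    have h3 : (#((Tr H).filter (fun t => PP (cv t)) ∪ X) : ℝ) ≤
        #((Pool.Agent.TH892.box 2 H).filter PP) + #X := by
      exact_mod_cast h2.trans (Nat.add_le_add_right h1 _)
    rw [card_box_two] at hbad
    calc _ ≤ _ := h3
      _ ≤ (#(Tr H) : ℝ) / L ^ (U + 1) + (#(Tr H) : ℝ) / L ^ (U + 1) := add_le_add hbad hXc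
      _ = (#(Tr H) : ℝ) / L ^ U * (2 / L) := by rw [pow_succ]; field_simp; ring
      _ ≤ (#(Tr H) : ℝ) / L ^ U * 1 := by
          apply mul_le_mul_of_nonneg_left _ (by positivity)
          rw [div_le_one hL0]
          linarith
      _ = _ := mul_one _
  · intro t ht htB hadm
    rw [mem_union, not_or, mem_filter] at htB
    obtain ⟨hb1, hb2⟩ := htB
    have hnP : ¬ PP (cv t) := fun h => hb1 ⟨ht, h⟩
    have ha : 0 < t.1 := hadm.1
    have hD := hadm.2.2.2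
    obtain ⟨C, hC0, hlim⟩ := CF_tendsto t.1 t.2.1 t.2.2 ha hD
    have hc0 : t.2.2 ≠ 0 := by
      intro h0
      apply hD
      rw [h0]
      exact ⟨t.2.1, by ring⟩
    have hlog := hX t ht hb2 hc0 hD
    have hcl := CF_limit t.1 t.2.1 t.2.2 C hC0 hlim z (1 / L ^ (U + 1)) (by
      rw [div_le_one (hLp0 _)]; exact hLp _) hlog
    refine ⟨C, hC0, hlim, fun x hx1 hx2 => ?_⟩
    have hSS := SS_eq t.1 t.2.1 t.2.2 hadm z hz2
    have h1 : |pa (pol (cv t)) x - SS z (pol (cv t)) * la (pol (cv t)) x| ≤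
        SS z (pol (cv t)) * la (pol (cv t)) x / L ^ (U + 1) := by
      by_contra hcon
      push Not at hcon
      apply hnP
      rw [hPP]
      refine ⟨fun p hp _ => ?_, x, hx1, hx2, hcon⟩
      rw [pol_cv]
      exact rho_ne _ _ _ hadm p hp
    rw [pol_cv, pa_eq, la_eq, hSS] at h1
    have hM := ls_nonneg t.1 t.2.1 t.2.2 x
    have hθ0 : 0 ≤ 1 / L ^ (U + 1) := by positivity
    refine (final_ar (cp t.1 t.2.1 t.2.2 x) (ls t.1 t.2.1 t.2.2 x) (2 * CF t.1 t.2.1 t.2.2 z) C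
      (1 / L ^ (U + 1)) (1 / L ^ (U + 1)) (1 / L ^ U) hM hC0 ?_ ?_ hθ0 ?_ hθ0 ?_).trans (le_of_eq ?_)
    · refine h1.trans (le_of_eq ?_)
      ring
    · have e : 2 * CF t.1 t.2.1 t.2.2 z - 2 * C = 2 * (CF t.1 t.2.1 t.2.2 z - C) := by ring
      rw [e, abs_mul, abs_of_pos (by norm_num : (0:ℝ) < 2)]
      linarith
    · rw [div_le_one (hLp0 _)]; exact hLp _
    · rw [pow_succ]
      have h5 : 1 / (L ^ U * L) + 4 * (1 / (L ^ U * L)) = 1 / L ^ U * (5 / L) := by field_simp; ring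
      rw [h5]
      apply mul_le_of_le_one_right (by positivity)
      rw [div_le_one hL0]
      linarith
    · ring

end Pool.Agent.Y889.CF
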