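import Pool.Agent.Y889.SK.Exc
import Pool.Agent.TH892.CF3
import Pool.Agent.W468.ConjFDefs

/-!
Conjecture F on average: the passage from polynomials of degree 2 of height at most `H` to triples
`(a, b, c)`, and the Euler product.
-/

set_option autoImplicit false

namespace Pool.Agent.Y889.CF

open Finset Polynomial Filter Topology
open Pool.Agent.H300R2.BH
open Pool.Agent.H300R2.FB
open Pool.Agent.TH892
open Pool.Agent.W468.ConjF

/-- the coefficient vector of a triple -/
def cv (t : ℤ × ℤ × ℤ) : Fin (2 + 1) → ℤ := ![t.2.2, t.2.1, t.1]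

lemma cv_inj : Function.Injective cv := by
  intro s t h
  have h0 := congrFun h 0
  have h1 := congrFun h 1
  have h2 := congrFun h 2
  simp only [cv, Matrix.cons_val_zero, Matrix.cons_val_one, Matrix.cons_val] at h0 h1 h2
  ext
  · exact h2
  · exact h1
  · exact h0

lemma cv_mem {H : ℕ} {t : ℤ × ℤ × ℤ} (ht : t ∈ Tr H) : cv t ∈ Pool.Agent.TH892.box 2 H := by
  rw [mem_Tr] at ht
  unfold Pool.Agent.TH892.box
  rw [Fintype.mem_piFinset]
  intro i
  fin_cases i
  · simp only [cv]
    simp
    omega
  · simp only [cv]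
    simp
    omega
  · simp only [cv]
    simp
    omega

lemma pol_cv (t : ℤ × ℤ × ℤ) : pol (cv t) = Pool.Agent.W468.ConjF.P t.1 t.2.1 t.2.2 := by
  unfold pol Pool.Agent.W468.ConjF.P cv
  rw [Fin.sum_univ_three]
  simp only [Matrix.cons_val_zero, Matrix.cons_val_one, Matrix.cons_val, Fin.val_zero, Fin.val_one,
    Fin.val_two, pow_zero, mul_one, pow_one]
  ring

lemma card_box_two (H : ℕ) : ((Pool.Agent.TH892.box 2 H).card : ℝ) = (#(Tr H) : ℝ) := by
  rw [card_box (by norm_num) H, card_bx, card_Tr]
  rw [prod_const, card_univ, Fintype.card_fin]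
  norm_num
  ring

/-- an admissible triple has no fixed prime divisor -/
lemma rho_ne (a b c : ℤ) (h : Admissible a b c) (p : ℕ) (hp : p.Prime) :
    rho (Pool.Agent.W468.ConjF.P a b c) p ≠ p := by
  obtain ⟨ha, hg, h2, -⟩ := h
  have e : rho (Pool.Agent.W468.ConjF.P a b c) p = nr a b c p := by
    unfold rho nr
    congr 1
    apply filter_congr
    intro r _
    rw [eval_P]
  rw [e]
  have hp2 := hp.two_le
  rcases eq_or_lt_of_le hp2 with h3 | h3
  · rw [← h3, nr_two a b c h2]
    split_ifs <;> norm_num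
  · by_cases hpa : (p : ℤ) ∣ a
    · by_cases hpb : (p : ℤ) ∣ b
      · have hpc : ¬ (p : ℤ) ∣ c := by
          intro hpc
          have := hg _ hpa hpb hpc
          rw [Int.isUnit_iff] at this
          omega
        rw [nr_none a b c p hpa hpb hpc]
        omega
      · rw [nr_lin a b c p hp hpa hpb]
        omega
    · have h4 := nr_odd a b c p hp (by omega) hpa
      have h5 : |jacobiSym (b ^ 2 - 4 * a * c) p| ≤ 1 := by
        have := Pool.Agent.W468.ConjF.js_abs (b ^ 2 - 4 * a * c) p
        exact_mod_cast this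
      rw [abs_le] at h5
      omega

/-- the Euler product is twice the constant of Conjecture F -/
lemma SS_eq (a b c : ℤ) (h : Admissible a b c) (z : ℕ) (hz : 2 ≤ z) :
    SS z (Pool.Agent.W468.ConjF.P a b c) = 2 * CF a b c z := by
  rw [← euler_eq a b c h z hz (fun _ => Pool.Agent.W468.ConjF.P a b c) (fun _ => rfl)]
  unfold SS Pool.Agent.H373R2.BH.eulerProduct
  have hs : (Icc 1 z).filter Nat.Prime = (range (z + 1)).filter Nat.Prime := by
    ext p
    simp only [mem_filter, mem_Icc, mem_range]
    constructor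
    · rintro ⟨⟨h1, h2⟩, h3⟩
      exact ⟨by omega, h3⟩
    · rintro ⟨h1, h3⟩
      exact ⟨⟨h3.one_lt.le, by omega⟩, h3⟩
  rw [hs]
  apply prod_congr rfl
  intro p hp
  have e : rho (Pool.Agent.W468.ConjF.P a b c) p =
      Pool.Agent.H373R2.BH.omegaP (fun _ : Fin 1 => Pool.Agent.W468.ConjF.P a b c) p := by
    classical
    unfold rho Pool.Agent.H373R2.BH.omegaP
    congr 1
    apply filter_congr
    intro r _
    simp only [exists_const]
  rw [e, pow_one, div_eq_mul_inv, mul_comm]

end Pool.Agent.Y889.CF
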