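import Pool.Agent.W468.ConjFDefs

set_option autoImplicit false

/-!
# Admissible quadratic polynomials are irreducible
-/

namespace Pool.Agent.Y889.CF

open Polynomial Finset
open Pool.Agent.W468.ConjF (P eval_P natDegree_P leadingCoeff_P)

lemma P_prim (a b c : ℤ) (h : ∀ d : ℤ, d ∣ a → d ∣ b → d ∣ c → IsUnit d) : (P a b c).IsPrimitive := by
  intro r hr
  rw [C_dvd_iff_dvd_coeff] at hr
  have e2 : (P a b c).coeff 2 = a := by
    simp only [P, coeff_add, coeff_C_mul, coeff_X_pow, coeff_X, coeff_C]; norm_num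
  have e1 : (P a b c).coeff 1 = b := by
    simp only [P, coeff_add, coeff_C_mul, coeff_X_pow, coeff_X, coeff_C]; norm_num
  have e0 : (P a b c).coeff 0 = c := by
    simp only [P, coeff_add, coeff_C_mul, coeff_X_pow, coeff_X, coeff_C]; norm_num
  exact h r (e2 ▸ hr 2) (e1 ▸ hr 1) (e0 ▸ hr 0)

/-- a primitive quadratic polynomial whose discriminant is not a square is irreducible -/
lemma P_irr (a b c : ℤ) (ha : 0 < a) (h : ∀ d : ℤ, d ∣ a → d ∣ b → d ∣ c → IsUnit d)
    (hD : ¬ IsSquare (b ^ 2 - 4 * a * c)) : Irreducible (P a b c) := by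
  rw [IsPrimitive.Int.irreducible_iff_irreducible_map_cast (P_prim a b c h)]
  have haQ : (a : ℚ) ≠ 0 := by exact_mod_cast ha.ne'
  have e : (P a b c).map (Int.castRingHom ℚ) = C (a : ℚ) * X ^ 2 + C (b : ℚ) * X + C (c : ℚ) := by
    simp [P]
  have hd : ((P a b c).map (Int.castRingHom ℚ)).natDegree = 2 := by
    rw [e]; exact natDegree_quadratic haQ
  rw [irreducible_iff_roots_eq_zero_of_degree_le_three (by rw [hd]) (by rw [hd]; norm_num)]
  rw [Multiset.eq_zero_iff_forall_notMem]
  intro r hr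
  have h1 := (mem_roots'.1 hr).2
  rw [IsRoot, e] at h1
  simp only [eval_add, eval_mul, eval_C, eval_pow, eval_X] at h1
  apply hD
  rw [← Rat.isSquare_intCast_iff]
  refine ⟨2 * a * r + b, ?_⟩
  push_cast
  linear_combination (-4 * (a : ℚ)) * h1

end Pool.Agent.Y889.CF
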